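import Pool.Agent.R21.OA.CaseB

/-!
# OR/AND structure of Boolean functions concentrated within the blocks of a partition

`{±1}` is the type `ℤˣ` of the units of `ℤ`, `{±1}^m` is `Fin m → ℤˣ`. A partition of `[m]` into the
blocks `I 0, …, I (n-1)` is given by `I : Fin n → Finset (Fin m)` (`IsPartition`). The value `true`
is `t`, any element of `{±1}`.
-/

set_option autoImplicit false

namespace Pool.Agent.Results.MP_c2536d_co.OrAndStructure

open scoped Classical
open Pool.Agent.R21.OA (E E_add E_sub E_mul_left E_mul_right E_const E_mono E_sum E_equiv cond_spec F0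
  G del orR thmB orth_coord)

variable {m n : ℕ}

/-- `E[f(X)]` for `X` uniform on `{±1}^m` -/
noncomputable def avg (f : (Fin m → ℤˣ) → ℝ) : ℝ := (∑ x, f x) / 2 ^ m

/-- the character `χ_S(x) = ∏_{i ∈ S} x_i` -/
def chi (S : Finset (Fin m)) (x : Fin m → ℤˣ) : ℝ := ∏ i ∈ S, ((x i : ℤ) : ℝ)

/-- the real function given by a Boolean function -/
def real (f : (Fin m → ℤˣ) → ℤˣ) (x : Fin m → ℤˣ) : ℝ := ((f x : ℤ) : ℝ)

/-- the Fourier-Walsh coefficient `E[f(X) χ_S(X)]` of a Boolean function `f` -/
noncomputable def coeff (f : (Fin m → ℤˣ) → ℤˣ) (S : Finset (Fin m)) : ℝ :=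
  avg (fun x => real f x * chi S x)

/-- `I 0, …, I (n-1)` is a partition of `[m]` into nonempty blocks -/
structure IsPartition (I : Fin n → Finset (Fin m)) : Prop where
  nonempty : ∀ j, (I j).Nonempty
  cover : ∀ i, ∃! j, i ∈ I j

/-- `f` is `ε`-concentrated on the partition -/
def Concentrated (I : Fin n → Finset (Fin m)) (ε : ℝ) (f : (Fin m → ℤˣ) → ℤˣ) : Prop :=
  1 - ε ≤ ∑ S ∈ (Finset.univ : Finset (Finset (Fin m))).filter (fun S => ∃ j, S ⊆ I j), coeff f S ^ 2

/-- `OR`, where `t` is the value `true` and `-t` the value `false` -/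
noncomputable def orFun (t : ℤˣ) (b : Fin n → ℤˣ) : ℤˣ := if ∃ j, b j = t then t else -t

/-- `AND`, where `t` is the value `true` and `-t` the value `false` -/
noncomputable def andFun (t : ℤˣ) (b : Fin n → ℤˣ) : ℤˣ := if ∀ j, b j = t then t else -t

/-- the restriction of `x` to the block `I j` -/
def restr (I : Fin n → Finset (Fin m)) (x : Fin m → ℤˣ) (j : Fin n) : I j → ℤˣ := fun i => x i

/-! ### Proof -/

theorem avg_eq (f : (Fin m → ℤˣ) → ℝ) : avg f = E f := by
  unfold avg E
  congr 1
  rw [Fintype.card_fun, Fintype.card_units_int, Fintype.card_fin]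
  push_cast
  rfl

theorem chi_mul (S : Finset (Fin m)) (x y : Fin m → ℤˣ) : chi S (x * y) = chi S x * chi S y := by
  unfold chi
  rw [← Finset.prod_mul_distrib]
  apply Finset.prod_congr rfl
  intro i _
  rw [Pi.mul_apply]
  push_cast
  rfl

theorem unit_sq (u : ℤˣ) : ((u : ℤ) : ℝ) * ((u : ℤ) : ℝ) = 1 := by
  rcases Int.units_eq_one_or u with h | h <;> rw [h] <;> norm_num

theorem chi_self (S : Finset (Fin m)) (x : Fin m → ℤˣ) : chi S x * chi S x = 1 := by
  unfold chi
  rw [← Finset.prod_mul_distrib]
  exact Finset.prod_eq_one fun i _ => unit_sq _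

theorem chi_single (S : Finset (Fin m)) (i : Fin m) :
    chi S (Pi.mulSingle i (-1)) = if i ∈ S then -1 else 1 := by
  unfold chi
  split_ifs with h
  · rw [Finset.prod_eq_single i]
    · rw [Pi.mulSingle_eq_same]
      norm_num
    · intro k _ hk
      rw [Pi.mulSingle_eq_of_ne hk]
      norm_num
    · intro h'
      exact absurd h h'
  · apply Finset.prod_eq_one
    intro k hk
    have : k ≠ i := by
      rintro rfl
      exact h hk
    rw [Pi.mulSingle_eq_of_ne this]
    norm_num

theorem chi_orth (S T : Finset (Fin m)) :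
    E (fun x : Fin m → ℤˣ => chi S x * chi T x) = if S = T then 1 else 0 := by
  split_ifs with h
  · subst h
    simp only [chi_self]
    exact E_const 1
  · obtain ⟨i, hi⟩ : ∃ i, ¬ (i ∈ S ↔ i ∈ T) := by
      by_contra hcon
      push Not at hcon
      exact h (Finset.ext hcon)
    have h1 := E_equiv (Equiv.mulRight (Pi.mulSingle i (-1) : Fin m → ℤˣ))
      (fun x : Fin m → ℤˣ => chi S x * chi T x)
    have h2 : ∀ x : Fin m → ℤˣ, chi S (Equiv.mulRight (Pi.mulSingle i (-1) : Fin m → ℤˣ) x) *
        chi T (Equiv.mulRight (Pi.mulSingle i (-1) : Fin m → ℤˣ) x) =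
        (-1) * (chi S x * chi T x) := by
      intro x
      rw [Equiv.coe_mulRight, chi_mul, chi_mul, chi_single, chi_single]
      by_cases hS : i ∈ S <;> by_cases hT : i ∈ T
      · exact absurd (iff_of_true hS hT) hi
      · rw [if_pos hS, if_neg hT]
        ring
      · rw [if_neg hS, if_pos hT]
        ring
      · exact absurd (iff_of_false hS hT) hi
    simp only [h2] at h1
    rw [E_mul_left] at h1
    linarith

/-- the distance to the part of the Fourier expansion -/
theorem E_sq (f : (Fin m → ℤˣ) → ℤˣ) (B : Finset (Finset (Fin m))) :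
    E (fun x => (real f x - ∑ S ∈ B, coeff f S * chi S x) ^ 2) = 1 - ∑ S ∈ B, coeff f S ^ 2 := by
  have h1 : ∀ x, (real f x - ∑ S ∈ B, coeff f S * chi S x) ^ 2 =
      1 - 2 * (∑ S ∈ B, coeff f S * (real f x * chi S x)) +
        ∑ S ∈ B, ∑ T ∈ B, (coeff f S * coeff f T) * (chi S x * chi T x) := by
    intro x
    have e1 : real f x * real f x = 1 := unit_sq _
    have e2 : ∑ S ∈ B, coeff f S * (real f x * chi S x) =
        real f x * ∑ S ∈ B, coeff f S * chi S x := by
      rw [Finset.mul_sum]
      exact Finset.sum_congr rfl fun S _ => by ring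
    have e3 : ∑ S ∈ B, ∑ T ∈ B, (coeff f S * coeff f T) * (chi S x * chi T x) =
        (∑ S ∈ B, coeff f S * chi S x) * ∑ S ∈ B, coeff f S * chi S x := by
      rw [Finset.sum_mul_sum]
      exact Finset.sum_congr rfl fun S _ => Finset.sum_congr rfl fun T _ => by ring
    rw [e2, e3]
    linear_combination e1
  simp only [h1]
  rw [E_add, E_sub, E_const, E_mul_left, E_sum, E_sum]
  have h2 : ∀ S ∈ B, E (fun x => coeff f S * (real f x * chi S x)) = coeff f S ^ 2 := by
    intro S _
    rw [E_mul_left, ← avg_eq, sq]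
    rfl
  rw [Finset.sum_congr rfl h2]
  have h3 : ∀ S ∈ B, E (fun x => ∑ T ∈ B, (coeff f S * coeff f T) * (chi S x * chi T x)) =
      coeff f S ^ 2 := by
    intro S hS
    rw [E_sum, Finset.sum_eq_single S]
    · rw [E_mul_left, chi_orth, if_pos rfl]
      ring
    · intro T _ hT
      rw [E_mul_left, chi_orth, if_neg hT.symm, mul_zero]
    · intro h
      exact absurd hS h
  rw [Finset.sum_congr rfl h3]
  ring

/-- points of the cube as points of the product of the cubes of the blocks -/
noncomputable def blockEquiv (I : Fin n → Finset (Fin m)) (hI : IsPartition I) :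
    (Fin m → ℤˣ) ≃ (∀ j, I j → ℤˣ) where
  toFun x := restr I x
  invFun y := fun i => y (hI.cover i).choose ⟨i, (hI.cover i).choose_spec.1⟩
  left_inv x := rfl
  right_inv y := by
    funext j i
    show y (hI.cover i).choose ⟨i, _⟩ = y j i
    have h : (hI.cover i).choose = j := ((hI.cover i).choose_spec.2 j i.2).symm
    have key : ∀ (k : Fin n) (hk : (i : Fin m) ∈ I k), k = j → y k ⟨i, hk⟩ = y j i := by
      rintro k hk rfl
      rfl
    exact key _ _ h

theorem unit_cases (s t : ℤˣ) : s = t ∨ s = -t := by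
  rcases Int.units_eq_one_or s with h | h <;> rcases Int.units_eq_one_or t with h' | h' <;>
    rw [h, h'] <;> simp

theorem unit_dist (u v s : ℤˣ) : (((u : ℤ) : ℝ) - ((v : ℤ) : ℝ)) ^ 2 =
    4 * ((if u = s then (1 : ℝ) else 0) - (if v = s then (1 : ℝ) else 0)) ^ 2 := by
  rcases Int.units_eq_one_or u with h | h <;> rcases Int.units_eq_one_or v with h' | h' <;>
    rcases Int.units_eq_one_or s with h'' | h'' <;> rw [h, h', h''] <;> simp <;> norm_num

theorem unit_ind (u s : ℤˣ) : (if u = s then (1 : ℝ) else 0) =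
    (1 + ((s : ℤ) : ℝ) * ((u : ℤ) : ℝ)) / 2 := by
  rcases Int.units_eq_one_or u with h | h <;> rcases Int.units_eq_one_or s with h' | h' <;>
    rw [h, h'] <;> simp

/-- the projection is the closest sum of functions of one block -/
theorem del_le {J : Type} [Fintype J] [DecidableEq J] [Nonempty J] {Ω : J → Type}
    [∀ j, Fintype (Ω j)] [∀ j, Nonempty (Ω j)] (F H : (∀ j, Ω j) → ℝ)
    (h : E (fun x => (F x - F0 F x) * H x) = 0) : del F ≤ E (fun x => (F x - H x) ^ 2) := by
  have h0 : E (fun x => (F x - F0 F x) * F0 F x) = 0 := by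
    have e : ∀ x, (F x - F0 F x) * F0 F x = (F x - F0 F x) * E F +
        ∑ j, (F x - F0 F x) * G F j (x j) := by
      intro x
      rw [← Finset.mul_sum, ← mul_add]
      rfl
    simp only [e]
    obtain ⟨j0⟩ := ‹Nonempty J›
    have h2 := orth_coord F j0 (fun _ => E F)
    rw [E_add, E_sum, h2, zero_add]
    exact Finset.sum_eq_zero fun j _ => orth_coord F j (G F j)
  have h1 : ∀ x, (F x - H x) ^ 2 = (F x - F0 F x) ^ 2 + 2 * ((F x - F0 F x) * F0 F x) -
      2 * ((F x - F0 F x) * H x) + (F0 F x - H x) ^ 2 := by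
    intro x
    ring
  simp only [h1]
  rw [E_add, E_sub, E_add, E_mul_left, E_mul_left, h, h0]
  have h3 : 0 ≤ E (fun x => (F0 F x - H x) ^ 2) := Pool.Agent.R21.OA.E_nonneg fun _ => sq_nonneg _
  unfold del
  linarith

/-- the main theorem for the rarer value `s` of `f` -/
theorem key (I : Fin n → Finset (Fin m)) (hI : IsPartition I) (hm : 1 ≤ m) (ε : ℝ)
    (f : (Fin m → ℤˣ) → ℤˣ) (hf : Concentrated I ε f) (s : ℤˣ)
    (hs : E (fun x => if f x = s then (1 : ℝ) else 0) ≤ 1 / 2) :
    ∃ h : ∀ j, (I j → ℤˣ) → Bool,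
      E (fun x => ((if f x = s then (1 : ℝ) else 0) -
        (if ∃ j, h j (restr I x j) = true then 1 else 0)) ^ 2) ≤ 20000 * ε := by
  have hne : Nonempty (Fin n) := ⟨(hI.cover ⟨0, hm⟩).choose⟩
  set e := blockEquiv I hI with he
  set F : (∀ j, I j → ℤˣ) → ℝ := fun y => if f (e.symm y) = s then (1 : ℝ) else 0 with hFdef
  have hF : ∀ y, F y = 0 ∨ F y = 1 := by
    intro y
    simp only [hFdef]
    split_ifs
    · exact Or.inr rfl
    · exact Or.inl rfl
  have hEF : E F ≤ 1 / 2 := by
    rw [← E_equiv e F]
    simp only [hFdef, Equiv.symm_apply_apply]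
    exact hs
  obtain ⟨h, hh⟩ := thmB (Ω := fun j => (I j → ℤˣ)) F hF hEF
  refine ⟨h, ?_⟩
  set B := (Finset.univ : Finset (Finset (Fin m))).filter (fun S => ∃ j, S ⊆ I j) with hB
  set H : (∀ j, I j → ℤˣ) → ℝ := fun y => (1 + ((s : ℤ) : ℝ) *
    ∑ S ∈ B, coeff f S * chi S (e.symm y)) / 2 with hH
  -- orthogonality
  have horth : ∀ S ∈ B, E (fun y => (F y - F0 F y) * chi S (e.symm y)) = 0 := by
    intro S hS
    rw [hB, Finset.mem_filter] at hS
    obtain ⟨-, j, hj⟩ := hS
    have h1 : ∀ y : (∀ j, I j → ℤˣ), chi S (e.symm y) =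
        (fun a : I j → ℤˣ => ∏ i ∈ S.attach, ((a ⟨i, hj i.2⟩ : ℤ) : ℝ)) (y j) := by
      intro y
      obtain ⟨x, rfl⟩ := e.surjective y
      rw [Equiv.symm_apply_apply]
      unfold chi
      rw [← Finset.prod_attach]
      rfl
    simp only [h1]
    exact orth_coord F j (fun a : I j → ℤˣ => ∏ i ∈ S.attach, ((a ⟨i, hj i.2⟩ : ℤ) : ℝ))
  have horth1 : E (fun y => (F y - F0 F y)) = 0 := by
    have h2 := orth_coord F hne.some (fun _ => 1)
    simpa using h2
  have hHorth : E (fun y => (F y - F0 F y) * H y) = 0 := by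
    have h1 : ∀ y, (F y - F0 F y) * H y = (1 / 2) * (F y - F0 F y) +
        (((s : ℤ) : ℝ) / 2) * ∑ S ∈ B, coeff f S * ((F y - F0 F y) * chi S (e.symm y)) := by
      intro y
      have e2 : ∑ S ∈ B, coeff f S * ((F y - F0 F y) * chi S (e.symm y)) =
          (F y - F0 F y) * ∑ S ∈ B, coeff f S * chi S (e.symm y) := by
        rw [Finset.mul_sum]
        exact Finset.sum_congr rfl fun S _ => by ring
      rw [e2]
      simp only [hH]
      ring
    simp only [h1]
    rw [E_add, E_mul_left, horth1, E_mul_left, E_sum]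
    have h2 : ∀ S ∈ B, E (fun y => coeff f S * ((F y - F0 F y) * chi S (e.symm y))) = 0 := by
      intro S hS
      rw [E_mul_left, horth S hS, mul_zero]
    rw [Finset.sum_eq_zero h2]
    ring
  have hdel : del F ≤ ε / 4 := by
    refine (del_le F H hHorth).trans ?_
    rw [← E_equiv e (fun y => (F y - H y) ^ 2)]
    have h1 : ∀ x, (F (e x) - H (e x)) ^ 2 =
        (1 / 4) * (real f x - ∑ S ∈ B, coeff f S * chi S x) ^ 2 := by
      intro x
      simp only [hFdef, hH, Equiv.symm_apply_apply]
      rw [unit_ind]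
      have h2 := unit_sq s
      unfold real
      generalize (((s : ℤ)) : ℝ) = σ at *
      generalize (((f x : ℤ)) : ℝ) = φ at *
      generalize (∑ S ∈ B, coeff f S * chi S x) = ψ at *
      linear_combination (φ - ψ) ^ 2 / 4 * h2
    simp only [h1]
    rw [E_mul_left, E_sq]
    unfold Concentrated at hf
    linarith
  rw [← E_equiv e (fun x => (F x - orR h x) ^ 2)] at hh
  have h1 : ∀ x, (F (e x) - orR h (e x)) ^ 2 = ((if f x = s then (1 : ℝ) else 0) -
        (if ∃ j, h j (restr I x j) = true then 1 else 0)) ^ 2 := by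
    intro x
    simp only [hFdef, Equiv.symm_apply_apply]
    unfold orR
    by_cases hc : ∃ j, h j (e x j) = true
    · rw [if_pos hc, if_pos (show ∃ j, h j (restr I x j) = true from hc)]
    · rw [if_neg hc, if_neg (show ¬ ∃ j, h j (restr I x j) = true from hc)]
  simp only [h1] at hh
  linarith

/-- **Q1 is true, with `K = 80000`.** For every partition `I` of `[m]` into nonempty blocks, every
Boolean function `f` which is `ε`-concentrated on the partition, and each choice `t` of the value
`true`, there are Boolean functions `h j` of the blocks such that the squared `L₂` distance of `f` to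
`OR_j h_j` or to `AND_j h_j` is at most `80000 ε`. -/
theorem result : ∀ (m n : ℕ), 1 ≤ m → ∀ I : Fin n → Finset (Fin m), IsPartition I →
    ∀ ε : ℝ, 0 ≤ ε → ∀ f : (Fin m → ℤˣ) → ℤˣ, Concentrated I ε f → ∀ t : ℤˣ,
    ∃ h : ∀ j, (I j → ℤˣ) → ℤˣ,
      avg (fun x => (real f x - real (fun x => orFun t (fun j => h j (restr I x j))) x) ^ 2) ≤
        80000 * ε ∨
      avg (fun x => (real f x - real (fun x => andFun t (fun j => h j (restr I x j))) x) ^ 2) ≤
        80000 * ε := by
  intro m n hm I hI ε _ f hf t
  simp only [avg_eq]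
  obtain ⟨s, hs⟩ : ∃ s : ℤˣ, E (fun x => if f x = s then (1 : ℝ) else 0) ≤ 1 / 2 := by
    by_contra hcon
    push Not at hcon
    have h1 := hcon 1
    have h2 := hcon (-1)
    have h3 : E (fun x => (if f x = 1 then (1 : ℝ) else 0) + (if f x = -1 then (1 : ℝ) else 0)) =
        1 := by
      have : ∀ x, (if f x = 1 then (1 : ℝ) else 0) + (if f x = -1 then (1 : ℝ) else 0) = 1 := by
        intro x
        rcases Int.units_eq_one_or (f x) with h | h <;> rw [h] <;> norm_num
      simp only [this]
      exact E_const 1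
    rw [E_add] at h3
    linarith
  obtain ⟨h, hh⟩ := key I hI hm ε f hf s hs
  have hst : s ≠ -s := by
    rcases Int.units_eq_one_or s with h | h <;> rw [h] <;> decide
  rcases unit_cases t s with rfl | rfl
  · refine ⟨fun j a => if h j a = true then t else -t, Or.inl ?_⟩
    have h1 : ∀ x, (real f x - real (fun x => orFun t (fun j =>
        if h j (restr I x j) = true then t else -t)) x) ^ 2 =
        4 * ((if f x = t then (1 : ℝ) else 0) -
        (if ∃ j, h j (restr I x j) = true then 1 else 0)) ^ 2 := by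
      intro x
      unfold real
      rw [unit_dist _ _ t]
      congr 3
      apply if_congr _ rfl rfl
      unfold orFun
      have e1 : ∀ j, (if h j (restr I x j) = true then t else -t) = t ↔
          h j (restr I x j) = true := by
        intro j
        split_ifs with h'
        · exact iff_of_true rfl h'
        · exact iff_of_false hst.symm h'
      simp only [e1]
      split_ifs with h'
      · exact iff_of_true rfl h'
      · exact iff_of_false hst.symm h'
    simp only [h1]
    rw [E_mul_left]
    linarith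
  · refine ⟨fun j a => if h j a = true then s else -s, Or.inr ?_⟩
    have h1 : ∀ x, (real f x - real (fun x => andFun (-s) (fun j =>
        if h j (restr I x j) = true then s else -s)) x) ^ 2 =
        4 * ((if f x = s then (1 : ℝ) else 0) -
        (if ∃ j, h j (restr I x j) = true then 1 else 0)) ^ 2 := by
      intro x
      unfold real
      rw [unit_dist _ _ s]
      congr 3
      apply if_congr _ rfl rfl
      unfold andFun
      have e1 : ∀ j, (if h j (restr I x j) = true then s else -s) = -s ↔
          ¬ h j (restr I x j) = true := by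
        intro j
        split_ifs with h'
        · exact iff_of_false hst (not_not.2 h')
        · exact iff_of_true rfl h'
      simp only [e1, neg_neg]
      split_ifs with h'
      · refine iff_of_false hst.symm ?_
        push Not
        intro j
        simpa using h' j
      · refine iff_of_true rfl ?_
        push Not at h'
        obtain ⟨j, hj⟩ := h'
        exact ⟨j, hj⟩
    simp only [h1]
    rw [E_mul_left]
    linarith

end Pool.Agent.Results.MP_c2536d_co.OrAndStructure
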